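import Pool.Agent.LibHyp34.A9

/-!
Transcendental elements and finiteness of function fields.
-/

open scoped Classical
open Polynomial

namespace Pool.Agent.LibHyp34

open Pool.Agent.LibBH2

variable {k : Type} [Field k]

theorem ratfunc_mem {K : Type} [Field K] [Algebra k K] (ι : RatFunc k →ₐ[k] K)
    (L : IntermediateField k K) (hL : ι RatFunc.X ∈ L) (r : RatFunc k) : ι r ∈ L := by
  have h1 : ∀ P : k[X], ι (algebraMap k[X] (RatFunc k) P) ∈ L := by
    intro P
    have h2 : ι (algebraMap k[X] (RatFunc k) P) = aeval (ι RatFunc.X) P := by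
      have h3 : (ι.comp (IsScalarTower.toAlgHom k k[X] (RatFunc k))) =
          aeval (ι RatFunc.X) := by
        apply Polynomial.algHom_ext
        simp [RatFunc.algebraMap_X]
      exact DFunLike.congr_fun h3 P
    rw [h2]
    have h4 : Algebra.adjoin k {ι RatFunc.X} ≤ L.toSubalgebra :=
      Algebra.adjoin_le (by rintro _ rfl; exact hL)
    exact h4 (Polynomial.aeval_mem_adjoin_singleton k (ι RatFunc.X))
  rw [← RatFunc.num_div_denom r, map_div₀]
  exact L.div_mem (h1 _) (h1 _)

theorem transcendental_ι {K : Type} [Field K] [Algebra k K] (ι : RatFunc k →ₐ[k] K) :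
    Transcendental k (ι RatFunc.X) := by
  intro h
  exact transcendental_X ((isAlgebraic_algHom_iff ι ι.toRingHom.injective).1 h)

theorem finite_adjoin {K : Type} [Field K] [Algebra k K] (ι : RatFunc k →ₐ[k] K)
    (h : ι.toRingHom.Finite) :
    FiniteDimensional (IntermediateField.adjoin k {ι RatFunc.X}) K := by
  have hmem := ratfunc_mem ι (IntermediateField.adjoin k {ι RatFunc.X})
    (IntermediateField.mem_adjoin_simple_self k _)
  let j : RatFunc k →+* IntermediateField.adjoin k {ι RatFunc.X} :=
    ι.toRingHom.codRestrict _ hmem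
  let _ : Algebra (RatFunc k) K := ι.toRingHom.toAlgebra
  let _ : Algebra (RatFunc k) (IntermediateField.adjoin k {ι RatFunc.X}) := j.toAlgebra
  have : IsScalarTower (RatFunc k) (IntermediateField.adjoin k {ι RatFunc.X}) K :=
    IsScalarTower.of_algebraMap_eq (fun r => rfl)
  have : Module.Finite (RatFunc k) K := h
  exact Module.Finite.of_restrictScalars_finite (RatFunc k) _ K

variable [CharZero k] [IsAlgClosed k] {f : k[X]} [Hyp f]

theorem dv_X_sub_C {x y : k} (h : y ^ 2 = f.eval x) :
    dv (el f (X - C x) 0) = Finsupp.single (.aff x y h : Pt f) (1 : ℤ)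
      + Finsupp.single (neg (.aff x y h : Pt f)) (1 : ℤ) - Finsupp.single (.inf : Pt f) (2 : ℤ) := by
  have hne : el f (X - C x) 0 ≠ 0 := by
    intro h0
    exact X_sub_C_ne_zero x ((el_eq_zero_iff _ _).1 h0).1
  ext Q
  rw [dv_apply]
  match Q with
  | .inf =>
    rw [ord_inf hne, natDegree_Nm_zero, natDegree_X_sub_C]
    simp [neg]
  | .aff x' y' h' =>
    rw [ord_poly h' (X_sub_C_ne_zero x), rootMultiplicity_X_sub_C]
    simp only [neg, Finsupp.sub_apply, Finsupp.add_apply, Finsupp.single_apply, Pt.aff.injEq,
      reduceCtorEq, if_false, sub_zero]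
    by_cases hx : x' = x
    · subst hx
      simp only [true_and, if_true]
      have hy : y' ^ 2 = y ^ 2 := by rw [h, h']
      rcases sq_eq_sq_iff_eq_or_eq_neg.1 hy with h1 | h1
      · subst h1
        by_cases h0 : y' = 0
        · subst h0
          simp
        · have h2 : ¬ (-y' = y') := by
            intro h3
            apply h0
            exact self_eq_neg.1 h3.symm
          simp [h0, h2]
      · subst h1
        by_cases h0 : y = 0
        · subst h0
          simp
        · have h2 : ¬ (y = -y) := fun h3 => h0 (self_eq_neg.1 h3)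
          simp [h0, h2]
    · have hx' : ¬ (x = x') := fun h3 => hx h3.symm
      simp [hx, hx']

end Pool.Agent.LibHyp34
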