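import Pool.Agent.LibHyp34.A9
import Pool.Agent.LibHyp34.D2b

/-!
Galois action and independence of points with quadratic coordinates.
-/

open scoped Classical
open Polynomial

namespace Pool.Agent.LibHyp34

open Pool.Agent.LibBH2

abbrev Qb : Type := AlgebraicClosure ℚ

theorem mem_of_fixed (K₁ : IntermediateField ℚ Qb) (c : Qb)
    (h : ∀ σ : Qb ≃ₐ[ℚ] Qb, σ ∈ K₁.fixingSubgroup → σ c = c) : c ∈ K₁ := by
  have h1 : Algebra.IsAlgebraic ℚ Qb := AlgebraicClosure.isAlgebraic ℚ
  have h2 : IsAlgClosed Qb := inferInstance
  have h3 : IsAlgClosure ℚ Qb := ⟨h2, h1⟩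
  have h4 : Normal ℚ Qb := IsAlgClosure.normal ℚ Qb
  have h5 : IsGalois ℚ Qb := ⟨⟩
  rw [← InfiniteGalois.fixedField_fixingSubgroup K₁]
  intro σ
  exact h σ.1 σ.2

section

variable {f : Qb[X]} [Hyp f]

/-- the coefficients of `f` are in `K₀` -/
def RatF (f : Qb[X]) (K₀ : IntermediateField ℚ Qb) : Prop := ∀ n, f.coeff n ∈ K₀

theorem RatF.map {K₀ : IntermediateField ℚ Qb} (h : RatF f K₀) {σ : Qb ≃ₐ[ℚ] Qb}
    (hσ : σ ∈ K₀.fixingSubgroup) : f.map ((σ : Qb ≃+* Qb) : Qb →+* Qb) = f := by
  ext n
  rw [coeff_map]
  exact (IntermediateField.mem_fixingSubgroup_iff K₀ σ).1 hσ _ (h n)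

end

/-- the `x`-coordinate -/
noncomputable def D3b_x {f : Qb[X]} : Pt f → Qb
  | .inf => 0
  | .aff x _ _ => x

/-- the `y`-coordinate -/
noncomputable def D3b_y {f : Qb[X]} : Pt f → Qb
  | .inf => 0
  | .aff _ y _ => y

/-- points with `x`-coordinates in `K` whose `y`-coordinates generate different quadratic
extensions of `K` are independent -/
theorem indep_of_nonsquare (f : Qb[X]) [Hyp f] (K : IntermediateField ℚ Qb)
    [FiniteDimensional ℚ K] (hK : RatF f K) {m : ℕ} (P : Fin m → Pt f) (x y : Fin m → Qb)
    (h : ∀ i, y i ^ 2 = f.eval (x i)) (hP : ∀ i, P i = .aff (x i) (y i) (h i))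
    (hx : ∀ i, x i ∈ K) (hns : ∀ i j, i ≠ j → y i * y j ∉ K)
    (hnt : ∀ i, ∀ n : ℕ, n ≠ 0 → n • jP (P i) ≠ 0) :
    LinearIndependent ℤ (fun i => jP (P i)) := by
  rw [Fintype.linearIndependent_iff]
  have key : ∀ N : ℕ, ∀ g : Fin m → ℤ, (Finset.univ.filter fun i => g i ≠ 0).card ≤ N →
      ∑ i, g i • jP (P i) = 0 → ∀ i, g i = 0 := by
    intro N
    induction N with
    | zero =>
      intro g hg _ i
      have h1 : (Finset.univ.filter fun i => g i ≠ 0) = ∅ :=
        Finset.card_eq_zero.1 (Nat.le_zero.1 hg)
      by_contra hi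
      have h2 : i ∈ (Finset.univ.filter fun i => g i ≠ 0) := by simp [hi]
      rw [h1] at h2
      simp at h2
    | succ N ih =>
      intro g hg hsum
      by_contra hcon
      push Not at hcon
      obtain ⟨i, hi⟩ := hcon
      by_cases hex : ∃ j, j ≠ i ∧ g j ≠ 0
      · obtain ⟨j, hji, hj⟩ := hex
        have h1 : ∃ σ : Qb ≃ₐ[ℚ] Qb, σ ∈ K.fixingSubgroup ∧ σ (y i * y j) ≠ y i * y j := by
          by_contra hc
          push Not at hc
          exact hns i j (Ne.symm hji) (mem_of_fixed K _ hc)
        obtain ⟨σ, hσ, hσy⟩ := h1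
        have hσx : ∀ l, σ (x l) = x l := fun l =>
          (IntermediateField.mem_fixingSubgroup_iff K σ).1 hσ _ (hx l)
        have hf : f.map ((σ : Qb ≃+* Qb) : Qb →+* Qb) = f := hK.map hσ
        have hsq : ∀ l, (σ (y l)) ^ 2 = y l ^ 2 := by
          intro l
          have h2 : y l ^ 2 ∈ K := by
            rw [h l, Polynomial.eval_eq_sum_range]
            exact sum_mem fun n _ => mul_mem (hK n) (pow_mem (hx l) n)
          rw [← map_pow]
          exact (IntermediateField.mem_fixingSubgroup_iff K σ).1 hσ _ h2
        have hε : ∀ l, ∃ ε : ℤ, (ε = 1 ∨ ε = -1) ∧ σ (y l) = (ε : Qb) * y l := by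
          intro l
          rcases sq_eq_sq_iff_eq_or_eq_neg.1 (hsq l) with h3 | h3
          · exact ⟨1, Or.inl rfl, by rw [h3]; simp⟩
          · exact ⟨-1, Or.inr rfl, by rw [h3]; simp⟩
        choose ε hε1 hε2 using hε
        have hpact : ∀ l, pact (σ : Qb ≃+* Qb) hf (jP (P l)) = ε l • jP (P l) := by
          intro l
          rw [pact_jP]
          rcases hε1 l with h3 | h3
          · have h4 : act (σ : Qb ≃+* Qb) hf (P l) = P l := by
              rw [hP l]
              have h5 := hε2 l
              rw [h3] at h5
              simp only [Int.cast_one, one_mul] at h5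
              simp only [act]
              congr 1
              · exact hσx l
            rw [h4, h3, one_smul]
          · have h4 : act (σ : Qb ≃+* Qb) hf (P l) = neg (P l) := by
              rw [hP l]
              have h5 := hε2 l
              rw [h3] at h5
              simp only [Int.cast_neg, Int.cast_one, neg_mul, one_mul] at h5
              simp only [act, neg]
              congr 1
              · exact hσx l
            rw [h4, h3, jP_neg, neg_smul, one_smul]
        have hsum2 : ∑ l, (g l * ε l) • jP (P l) = 0 := by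
          have h3 := congrArg (pact (σ : Qb ≃+* Qb) hf) hsum
          rw [map_sum, map_zero] at h3
          rw [← h3]
          refine Finset.sum_congr rfl fun l _ => ?_
          rw [map_zsmul, hpact, mul_smul]
        have hsum3 : ∑ l, (g l * (ε l - ε i)) • jP (P l) = 0 := by
          have h3 : ∀ l, (g l * (ε l - ε i)) • jP (P l) =
              (g l * ε l) • jP (P l) - ε i • (g l • jP (P l)) := by
            intro l
            rw [mul_sub, sub_smul, smul_smul, mul_comm (g l) (ε i)]
          rw [Finset.sum_congr rfl fun l _ => h3 l, Finset.sum_sub_distrib, ← Finset.smul_sum,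
            hsum, hsum2, smul_zero, sub_zero]
        have hcard : (Finset.univ.filter fun l => g l * (ε l - ε i) ≠ 0).card ≤ N := by
          have h3 : (Finset.univ.filter fun l => g l * (ε l - ε i) ≠ 0) ⊆
              (Finset.univ.filter fun l => g l ≠ 0).erase i := by
            intro l hl
            rw [Finset.mem_filter] at hl
            rw [Finset.mem_erase, Finset.mem_filter]
            refine ⟨?_, Finset.mem_univ _, left_ne_zero_of_mul hl.2⟩
            rintro rfl
            exact hl.2 (by rw [sub_self, mul_zero])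
          have h4 : i ∈ (Finset.univ.filter fun l => g l ≠ 0) := by simp [hi]
          have h5 := Finset.card_le_card h3
          rw [Finset.card_erase_of_mem h4] at h5
          omega
        have hz := ih _ hcard hsum3 j
        rcases mul_eq_zero.1 hz with h3 | h3
        · exact hj h3
        · have h4 : ε j = ε i := by linarith
          apply hσy
          rw [map_mul, hε2 i, hε2 j, h4]
          rcases hε1 i with h5 | h5 <;> rw [h5] <;> simp
      · push Not at hex
        have h1 : ∑ l, g l • jP (P l) = g i • jP (P i) := by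
          rw [Finset.sum_eq_single i]
          · intro l _ hl
            rw [hex l hl, zero_smul]
          · intro h2
            exact absurd (Finset.mem_univ i) h2
        rw [h1] at hsum
        have h2 : (g i).natAbs • jP (P i) = 0 := by
          rcases Int.natAbs_eq (g i) with h3 | h3
          · rw [h3, natCast_zsmul] at hsum
            exact hsum
          · rw [h3, neg_smul, natCast_zsmul, neg_eq_zero] at hsum
            exact hsum
        exact hnt i _ (Int.natAbs_ne_zero.2 hi) h2
  intro g hsum
  exact key _ g le_rfl hsum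

end Pool.Agent.LibHyp34
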