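import Pool.Agent.LibHyp34.A3

/-!
Orders at infinity.
-/

open scoped Classical
open Polynomial

namespace Pool.Agent.LibHyp34

open Pool.Agent.LibBH2

variable {k : Type} [Field k] [CharZero k] [IsAlgClosed k] {f : k[X]} [Hyp f]

private theorem A5_hF : aeval (RatFunc.X⁻¹ : RatFunc k) (X * f.reverse) * RatFunc.X ^ (2 * (gn f + 1)) =
    algebraMap k[X] (RatFunc k) (DCf f).F := by
  have hX : (RatFunc.X : RatFunc k) ≠ 0 := RatFunc.X_ne_zero
  let _ : Invertible (RatFunc.X : RatFunc k) := invertibleOfNonzero hX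
  have h1 := eval₂_reverse_mul_pow (algebraMap k (RatFunc k)) (RatFunc.X : RatFunc k) f
  rw [invOf_eq_inv, Hyp.deg (f := f)] at h1
  have h2 : eval₂ (algebraMap k (RatFunc k)) RatFunc.X f = algebraMap k[X] (RatFunc k) f := by
    have : (aeval (RatFunc.X : RatFunc k) : k[X] →ₐ[k] RatFunc k) =
        IsScalarTower.toAlgHom k k[X] (RatFunc k) := by
      apply Polynomial.algHom_ext
      simp [RatFunc.algebraMap_X]
    exact DFunLike.congr_fun this f
  change _ = algebraMap k[X] (RatFunc k) f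
  rw [← h2, ← h1, map_mul, aeval_X, aeval_def]
  generalize eval₂ (algebraMap k (RatFunc k)) RatFunc.X⁻¹ f.reverse = E
  field_simp
  ring

private noncomputable def A5_D (f : k[X]) [Hyp f] : DC k (KC f) := (DCf f).atInf (gn f + 1) (X * f.reverse) A5_hF

private theorem A5_Ds : (A5_D f).s = (DCf f).s⁻¹ := DC.atInf_s _ _ _ _

private theorem A5_s_ne : (DCf f).s ≠ 0 := by
  have := (DCf f).s_sub_ne_zero 0
  simpa using this

private theorem A5_zer : (vp (.inf : Pt f)).Zer ((A5_D f).s - algebraMap k (KC f) 0) := by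
  have h := sp_vp (.inf : Pt f)
  change (vp (.inf : Pt f)).ord (DCf f).s < 0 at h
  right
  rw [map_zero, sub_zero, A5_Ds, Place.ord_inv]
  omega

private theorem A5_F0 : (A5_D f).F.eval 0 = 0 := by
  change (X * f.reverse).eval 0 = 0
  simp

private theorem A5_F1 : (A5_D f).F.derivative.eval 0 ≠ 0 := by
  change (X * f.reverse).derivative.eval 0 ≠ 0
  have hm : f.leadingCoeff = 1 := (Hyp.monic (f := f)).leadingCoeff
  have : f.reverse.eval 0 = 1 := by
    rw [← coeff_zero_eq_eval_zero, coeff_zero_reverse, hm]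
  rw [derivative_mul, eval_add, eval_mul, eval_mul]
  simp [this]

theorem ord_inf_s : (vp (.inf : Pt f)).ord (DCf f).s = -2 := by
  have h1 := (A5_D f).ram_e A5_F0 A5_F1 _ A5_zer
  have h2 := ((A5_D f).ram_s A5_F0 A5_F1 _ A5_zer).1
  rw [h1, map_zero, sub_zero, A5_Ds, Place.ord_inv] at h2
  linarith

private theorem A5_w_ne : (DCf f).w ≠ 0 := by
  intro h
  have h1 := (DCf f).aeval_F
  rw [h] at h1
  have h2 : f ≠ 0 := (Hyp.monic (f := f)).ne_zero
  exact (DCf f).aeval_ne_zero (P := (DCf f).F) h2 (by rw [← h1]; simp)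

theorem ord_inf_w : (vp (.inf : Pt f)).ord (DCf f).w = -(2 * gn f + 1 : ℤ) := by
  have h1 := (A5_D f).ram_e A5_F0 A5_F1 _ A5_zer
  change (vp (.inf : Pt f)).ord ((DCf f).w / (DCf f).s ^ (gn f + 1)) = 1 at h1
  rw [Place.ord_div _ _ _ A5_w_ne (pow_ne_zero _ A5_s_ne), Place.ord_pow, ord_inf_s] at h1
  push_cast at h1
  linarith

theorem natDegree_Nm {A B : k[X]} (hB : B ≠ 0) :
    (Nm f A B).natDegree = max (2 * A.natDegree) (2 * B.natDegree + (2 * gn f + 1)) := by
  have hf : f ≠ 0 := (Hyp.monic (f := f)).ne_zero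
  have h1 : (B ^ 2 * f).natDegree = 2 * B.natDegree + (2 * gn f + 1) := by
    rw [natDegree_mul (pow_ne_zero _ hB) hf, natDegree_pow, Hyp.deg (f := f)]
  have h2 : (A ^ 2).natDegree = 2 * A.natDegree := natDegree_pow _ _
  unfold Nm
  rcases lt_or_ge (2 * A.natDegree) (2 * B.natDegree + (2 * gn f + 1)) with h | h
  · rw [natDegree_sub_eq_right_of_natDegree_lt (by rw [h1, h2]; exact h), h1, max_eq_right h.le]
  · have h' : 2 * B.natDegree + (2 * gn f + 1) < 2 * A.natDegree := by omega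
    rw [natDegree_sub_eq_left_of_natDegree_lt (by rw [h1, h2]; exact h'), h2, max_eq_left h'.le]

theorem natDegree_Nm_zero (A : k[X]) : (Nm f A 0).natDegree = 2 * A.natDegree := by
  unfold Nm
  simp [natDegree_pow]

private theorem A5_poly {A : k[X]} (hA : A ≠ 0) :
    (vp (.inf : Pt f)).ord (aeval (DCf f).s A) = -(2 * A.natDegree : ℤ) := by
  let _ : Invertible (DCf f).s := invertibleOfNonzero A5_s_ne
  have h1 := eval₂_reverse_mul_pow (algebraMap k (KC f)) (DCf f).s A
  rw [invOf_eq_inv, ← aeval_def, ← aeval_def] at h1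
  have hr : A.reverse ≠ 0 := by rwa [Ne, reverse_eq_zero]
  have hz : (vp (.inf : Pt f)).Zer ((DCf f).s⁻¹ - algebraMap k (KC f) 0) := by
    have := A5_zer (f := f)
    rwa [A5_Ds] at this
  have hrv : A.reverse.eval 0 ≠ 0 := by
    rw [← coeff_zero_eq_eval_zero, coeff_zero_reverse]
    exact leadingCoeff_ne_zero.2 hA
  have h2 := Place.ord_eq_zero_of_val (Place.val_aeval hz A.reverse) hrv
  have h3 := Place.ne_zero_of_val (Place.val_aeval hz A.reverse) hrv
  rw [← h1, Place.ord_mul _ _ _ h3 (pow_ne_zero _ A5_s_ne), h2, Place.ord_pow, ord_inf_s]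
  ring

theorem ord_inf {A B : k[X]} (hne : el f A B ≠ 0) :
    (vp (.inf : Pt f)).ord (el f A B) = -((Nm f A B).natDegree : ℤ) := by
  by_cases hB : B = 0
  · have hA : A ≠ 0 := by
      intro hA
      apply hne
      rw [hA, hB]
      simp [el]
    rw [hB, natDegree_Nm_zero]
    have : el f A 0 = aeval (DCf f).s A := by simp [el]
    rw [this, A5_poly hA]
    push_cast
    ring
  have hBw : (vp (.inf : Pt f)).ord (aeval (DCf f).s B * (DCf f).w) = -(2 * B.natDegree + (2 * gn f + 1) : ℤ) := by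
    rw [Place.ord_mul _ _ _ ((DCf f).aeval_ne_zero hB) A5_w_ne, A5_poly hB, ord_inf_w]
    ring
  have hBw0 : aeval (DCf f).s B * (DCf f).w ≠ 0 := mul_ne_zero ((DCf f).aeval_ne_zero hB) A5_w_ne
  rw [natDegree_Nm hB]
  by_cases hA : A = 0
  · have : el f A B = aeval (DCf f).s B * (DCf f).w := by simp [el, hA]
    rw [this, hBw, hA]
    simp
  have hA0 := (DCf f).aeval_ne_zero hA
  unfold el
  rcases lt_or_ge (2 * A.natDegree) (2 * B.natDegree + (2 * gn f + 1)) with h | h
  · rw [add_comm, (Place.ord_add_of_lt hBw0 hA0 (by rw [hBw, A5_poly hA]; omega)).2, hBw,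
      max_eq_right h.le]
    push_cast
    ring
  · have h' : 2 * B.natDegree + (2 * gn f + 1) < 2 * A.natDegree := by omega
    rw [(Place.ord_add_of_lt hA0 hBw0 (by rw [hBw, A5_poly hA]; omega)).2, A5_poly hA,
      max_eq_left h'.le]
    push_cast
    ring

end Pool.Agent.LibHyp34
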