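import Pool.Agent.LibHyp34.Base

/-!
Every place of the function field has a centre.
-/

open scoped Classical
open Polynomial

namespace Pool.Agent.LibHyp34

open Pool.Agent.LibBH2

variable {k : Type} [Field k] [CharZero k] [IsAlgClosed k] {f : k[X]} [Hyp f]

/-- Every place has a centre: if `ord s < 0` it is `∞`; otherwise `ord (s - c) > 0` for some `c : k`
(if not, all polynomials in `s` would have order `0` as they split, so `v` would be trivial on `k(s)`
and then on the finite extension `KC f`). -/
theorem place_surj (v : Place k (KC f)) : ∃ P : Pt f, Sp v (gen f) P := by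
  by_cases hs : v.ord (DCf f).s < 0
  · exact ⟨.inf, hs⟩
  push Not at hs
  by_cases hc : ∃ c : k, v.Zer ((DCf f).s - algebraMap k (KC f) c)
  · obtain ⟨c, hc⟩ := hc
    obtain ⟨y₀, hy₀⟩ := IsAlgClosed.exists_pow_nat_eq (f.eval c) two_pos
    have hF : (DCf f).F.eval c = y₀ ^ 2 := hy₀.symm
    rcases (DCf f).w_val hF v hc with h | h
    · exact ⟨.aff c y₀ hy₀, hc, h⟩
    · exact ⟨.aff c (-y₀) (by rw [neg_sq, hy₀]), hc, h⟩
  · exfalso
    push Not at hc
    have hs0 : (DCf f).s ≠ 0 := by
      have := (DCf f).s_sub_ne_zero 0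
      simpa using this
    have h1 : ∀ c : k, v.ord ((DCf f).s - algebraMap k (KC f) c) = 0 := by
      intro c
      have hne := (DCf f).s_sub_ne_zero c
      have h2 : ¬ 0 < v.ord ((DCf f).s - algebraMap k (KC f) c) := fun h => hc c (Or.inr h)
      have h3 : v.Reg ((DCf f).s - algebraMap k (KC f) c) :=
        Place.Reg.sub (Or.inr hs) (v.reg_const c)
      have h4 := h3.resolve_left hne
      omega
    have h2 : ∀ P : k[X], P ≠ 0 → v.ord (aeval (DCf f).s P) = 0 := by
      intro P
      induction hn : P.natDegree generalizing P with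
      | zero =>
        intro hP
        rw [eq_C_of_natDegree_eq_zero hn, aeval_C]
        refine v.ord_const _ ?_
        intro h0
        apply hP
        rw [eq_C_of_natDegree_eq_zero hn, h0, C_0]
      | succ n ih =>
        intro hP
        have hd : P.degree ≠ 0 := by
          rw [degree_eq_natDegree hP, hn]
          exact_mod_cast Nat.succ_ne_zero n
        obtain ⟨c, hroot⟩ := IsAlgClosed.exists_root P hd
        obtain ⟨Q, hQ⟩ := dvd_iff_isRoot.2 hroot
        have hQ0 : Q ≠ 0 := by
          rintro rfl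
          rw [mul_zero] at hQ
          exact hP hQ
        have hQn : Q.natDegree = n := by
          have h3 := congrArg natDegree hQ
          rw [natDegree_mul (X_sub_C_ne_zero c) hQ0, natDegree_X_sub_C, hn] at h3
          omega
        have h4 : aeval (DCf f).s (X - C c) = (DCf f).s - algebraMap k (KC f) c := by simp
        rw [hQ, map_mul, h4, v.ord_mul _ _ ((DCf f).s_sub_ne_zero c)
          ((DCf f).aeval_ne_zero hQ0), h1, ih Q hQn hQ0, add_zero]
    have h3 : ∀ r : RatFunc k, r ≠ 0 → v.ord ((DCf f).ι r) = 0 := by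
      intro r hr
      have hn : r.num ≠ 0 := by simpa using hr
      rw [← RatFunc.num_div_denom r, map_div₀, (DCf f).ι_poly, (DCf f).ι_poly,
        v.ord_div _ _ ((DCf f).aeval_ne_zero hn) ((DCf f).aeval_ne_zero r.denom_ne_zero),
        h2 _ hn, h2 _ r.denom_ne_zero, sub_zero]
    obtain ⟨t, ht⟩ := v.exists_uniformizer
    have ht0 : t ≠ 0 := by
      rintro rfl
      rw [v.ord_zero] at ht
      exact zero_ne_one ht
    obtain ⟨a, b, hab⟩ := (DCf f).gen t
    have hT : (DCf f).ι (2 * a) - t = (DCf f).ι a - (DCf f).ι b * (DCf f).w := by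
      rw [hab, map_mul, map_ofNat]; ring
    have hN : t * ((DCf f).ι (2 * a) - t) = (DCf f).ι (a ^ 2 - b ^ 2 *
        algebraMap k[X] (RatFunc k) (DCf f).F) := by
      rw [hT, hab, map_sub, map_mul, map_pow, map_pow, ← (DCf f).hw]
      ring
    by_cases hz : (DCf f).ι (2 * a) - t = 0
    · have h4 : t = (DCf f).ι (2 * a) := (sub_eq_zero.1 hz).symm
      have h5 : (2 * a : RatFunc k) ≠ 0 := by
        intro h0
        rw [h0, map_zero] at h4
        exact ht0 h4
      have h6 := h3 _ h5
      rw [← h4, ht] at h6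
      exact one_ne_zero h6
    · have h4 := v.ord_mul t _ ht0 hz
      have h5 : (a ^ 2 - b ^ 2 * algebraMap k[X] (RatFunc k) (DCf f).F : RatFunc k) ≠ 0 := by
        intro h0
        rw [h0, map_zero] at hN
        exact (mul_ne_zero ht0 hz) hN
      rw [hN, h3 _ h5, ht] at h4
      by_cases h6 : (2 * a : RatFunc k) = 0
      · rw [h6, map_zero, zero_sub, Place.ord_neg, ht] at h4
        omega
      · have h7 : (DCf f).ι (2 * a) ≠ 0 := by
          intro h0
          exact h6 ((DCf f).ι_inj (by rw [h0, map_zero]))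
        have h8 := v.ord_add _ (-t) h7 (neg_ne_zero.2 ht0) (by rw [← sub_eq_add_neg]; exact hz)
        rw [Place.ord_neg, ht, h3 _ h6, ← sub_eq_add_neg] at h8
        have : min (0 : ℤ) 1 = 0 := by norm_num
        omega

end Pool.Agent.LibHyp34
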