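import Pool.Agent.LibHyp34.A1
import Pool.Agent.LibHyp34.A1b

/-!
The place at a point.
-/

open scoped Classical
open Polynomial

namespace Pool.Agent.LibHyp34

open Pool.Agent.LibBH2

variable {k : Type} [Field k] [CharZero k] [IsAlgClosed k] {f : k[X]} [Hyp f]

/-- the place centred at `P` -/
noncomputable def vp (P : Pt f) : Place k (KC f) := Classical.choose (place_exists P)

theorem sp_vp (P : Pt f) : Sp (vp P) (gen f) P := Classical.choose_spec (place_exists P)

theorem eq_vp {v : Place k (KC f)} {P : Pt f} (h : Sp v (gen f) P) : v = vp P :=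
  place_unique h (sp_vp P)

theorem vp_injective {P Q : Pt f} (h : vp P = vp Q) : P = Q :=
  sp_injective (sp_vp P) (h ▸ sp_vp Q)

theorem exists_eq_vp (v : Place k (KC f)) : ∃ P, v = vp P := by
  obtain ⟨P, hP⟩ := place_surj v
  exact ⟨P, eq_vp hP⟩

end Pool.Agent.LibHyp34
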