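import Pool.Agent.LibHyp34.Base

/-!
Places of the function field: existence and uniqueness for each point.
-/

open scoped Classical
open Polynomial

namespace Pool.Agent.LibHyp34

open Pool.Agent.LibBH2

variable {k : Type} [Field k] [CharZero k] [IsAlgClosed k] {f : k[X]} [Hyp f]

section A1aux

omit [IsAlgClosed k] in
theorem A1_deriv_ne {x : k} (h : f.eval x = 0) : f.derivative.eval x ≠ 0 := by
  have hs : f.Separable := PerfectField.separable_iff_squarefree.2 (Hyp.sqf (f := f))
  have h1 := hs.eval₂_derivative_ne_zero (RingHom.id k) (x := x) (by simpa using h)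
  simpa using h1

variable (f)

omit [CharZero k] [IsAlgClosed k] in
theorem A1_F : (DCf f).F = f := rfl

omit [CharZero k] [IsAlgClosed k] in
theorem A1_hinf : aeval (RatFunc.X⁻¹ : RatFunc k) (X * f.reverse) * RatFunc.X ^ (2 * (gn f + 1)) =
    algebraMap k[X] (RatFunc k) (DCf f).F := by
  rw [A1_F]
  have hX : (RatFunc.X : RatFunc k) ≠ 0 := RatFunc.X_ne_zero
  let _ : Invertible (RatFunc.X : RatFunc k) := invertibleOfNonzero hX
  have h1 := eval₂_reverse_mul_pow (algebraMap k (RatFunc k)) (RatFunc.X : RatFunc k) f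
  rw [Hyp.deg (f := f)] at h1
  have h2 : (⅟(RatFunc.X : RatFunc k)) = RatFunc.X⁻¹ := invOf_eq_inv _
  rw [h2] at h1
  have h3 : aeval (RatFunc.X : RatFunc k) f = algebraMap k[X] (RatFunc k) f := by
    have : (aeval (RatFunc.X : RatFunc k) : k[X] →ₐ[k] RatFunc k) =
        IsScalarTower.toAlgHom k k[X] (RatFunc k) := by
      apply Polynomial.algHom_ext
      simp [RatFunc.algebraMap_X]
    rw [this]
    rfl
  rw [← h3, map_mul, aeval_X]
  rw [aeval_def, aeval_def, ← h1]
  generalize eval₂ (algebraMap k (RatFunc k)) (RatFunc.X⁻¹) f.reverse = r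
  have h4 : (RatFunc.X : RatFunc k)⁻¹ * RatFunc.X = 1 := inv_mul_cancel₀ hX
  linear_combination r * RatFunc.X ^ (2 * gn f + 1) * h4

/-- the chart at infinity -/
noncomputable def A1_inf : DC k (KC f) := (DCf f).atInf (gn f + 1) (X * f.reverse) (A1_hinf f)

omit [CharZero k] [IsAlgClosed k] in
theorem A1_inf_F : (A1_inf f).F = X * f.reverse := rfl

omit [CharZero k] [IsAlgClosed k] in
theorem A1_inf_s : (A1_inf f).s = (DCf f).s⁻¹ := DC.atInf_s _ _ _ _

omit [CharZero k] [IsAlgClosed k] in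
theorem A1_inf_w : (A1_inf f).w = (DCf f).w / (DCf f).s ^ (gn f + 1) := rfl

omit [CharZero k] [IsAlgClosed k] in
theorem A1_inf_F0 : (A1_inf f).F.eval 0 = 0 := by
  rw [A1_inf_F]; simp

omit [CharZero k] [IsAlgClosed k] in
theorem A1_inf_F1 : (A1_inf f).F.derivative.eval 0 ≠ 0 := by
  rw [A1_inf_F]
  have h1 : f.reverse.eval 0 = 1 := by
    rw [← coeff_zero_eq_eval_zero, coeff_zero_reverse, (Hyp.monic (f := f)).leadingCoeff]
  rw [derivative_mul, eval_add, eval_mul, eval_mul, h1]
  simp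

omit [CharZero k] [IsAlgClosed k] in
theorem A1_s_ne : (DCf f).s ≠ 0 := by
  have := (DCf f).s_sub_ne_zero 0
  simpa using this

variable {f}

omit [CharZero k] [IsAlgClosed k] in
theorem A1_sp_inf (v : Place k (KC f)) :
    Sp v (gen f) .inf ↔ v.Zer ((A1_inf f).s - algebraMap k (KC f) 0) := by
  rw [map_zero, sub_zero, A1_inf_s]
  have h0 : (DCf f).s⁻¹ ≠ 0 := inv_ne_zero (A1_s_ne f)
  constructor
  · intro h
    right
    rw [Place.ord_inv]
    have : v.ord (DCf f).s < 0 := h
    omega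
  · intro h
    have h1 := h.resolve_left h0
    rw [Place.ord_inv] at h1
    change v.ord (DCf f).s < 0
    omega

omit [CharZero k] [IsAlgClosed k] in
theorem A1_sp_aff (v : Place k (KC f)) {x y : k} (h : y ^ 2 = f.eval x) :
    Sp v (gen f) (.aff x y h) ↔ v.Zer ((DCf f).s - algebraMap k (KC f) x) ∧
      v.Zer ((DCf f).w - algebraMap k (KC f) y) := Iff.rfl

omit [CharZero k] in
theorem A1_isSquare (c : k) : IsSquare c :=
  (IsAlgClosed.exists_pow_nat_eq c two_pos).elim fun z hz => ⟨z, by rw [← hz, sq]⟩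

end A1aux

/-- Every point is the centre of a place. (Port of `LibBH2.place_exists`; at infinity use
`(DCf f).atInf (gn f + 1) (X * f.reverse)`.) -/
theorem place_exists (P : Pt f) : ∃ v : Place k (KC f), Sp v (gen f) P := by
  match P with
  | .inf =>
    obtain ⟨v, hv⟩ := (A1_inf f).exists_ram (DC.atInf_not_isSquare _ _ _ _ (nsq f))
      A1_isSquare (A1_inf_F0 f) (A1_inf_F1 f)
    exact ⟨v, (A1_sp_inf v).2 hv⟩
  | .aff x y h =>
    by_cases hy : y = 0
    · subst hy
      have hf : (DCf f).F.eval x = 0 := by rw [A1_F, ← h]; ring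
      obtain ⟨v, hv⟩ := (DCf f).exists_ram (nsq f) A1_isSquare hf (A1_deriv_ne (f := f) hf)
      refine ⟨v, (A1_sp_aff v h).2 ⟨hv, ?_⟩⟩
      rw [map_zero, sub_zero]
      exact Or.inr ((DCf f).ram_s hf (A1_deriv_ne (f := f) hf) v hv).2.1
    · obtain ⟨v, hv⟩ := (DCf f).exists_unram (nsq f) hy h.symm
      exact ⟨v, (A1_sp_aff v h).2 hv⟩

theorem place_unique {P : Pt f} {v v' : Place k (KC f)} (h : Sp v (gen f) P)
    (h' : Sp v' (gen f) P) : v = v' := by
  match P with
  | .inf =>
    exact (A1_inf f).ram_unique (A1_inf_F0 f) (A1_inf_F1 f) v v' ((A1_sp_inf v).1 h)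
      ((A1_sp_inf v').1 h')
  | .aff x y hxy =>
    rw [A1_sp_aff] at h h'
    by_cases hy : y = 0
    · subst hy
      have hf : (DCf f).F.eval x = 0 := by rw [A1_F, ← hxy]; ring
      exact (DCf f).ram_unique hf (A1_deriv_ne (f := f) hf) v v' h.1 h'.1
    · exact (DCf f).unram_unique two_ne_zero hy v v' h.1 h.2 h'.1 h'.2

theorem sp_injective {v : Place k (KC f)} {P Q : Pt f} (h : Sp v (gen f) P)
    (h' : Sp v (gen f) Q) : P = Q := by
  have key : ∀ (x y : k) (hxy : y ^ 2 = f.eval x), Sp v (gen f) (.aff x y hxy) →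
      ¬ Sp v (gen f) .inf := by
    intro x y hxy h1 h2
    have h3 : v.ord (DCf f).s < 0 := h2
    have h4 := Place.reg_of_val ((A1_sp_aff v hxy).1 h1).1
    have := h4.resolve_left (A1_s_ne f)
    omega
  match P, Q with
  | .inf, .inf => rfl
  | .inf, .aff x y hxy => exact absurd h (key x y hxy h')
  | .aff x y hxy, .inf => exact absurd h' (key x y hxy h)
  | .aff x y hxy, .aff x' y' hxy' =>
    have h1 := (A1_sp_aff v hxy).1 h
    have h2 := (A1_sp_aff v hxy').1 h'
    have e1 := Place.val_unique h1.1 h2.1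
    have e2 := Place.val_unique h1.2 h2.2
    subst e1; subst e2; rfl

end Pool.Agent.LibHyp34
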