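import Pool.Agent.LibHyp34.A4
import Pool.Agent.LibHyp34.A5
import Pool.Agent.LibHyp34.A6a

/-!
The sum of the orders of a function is zero.
-/

open scoped Classical
open Polynomial

namespace Pool.Agent.LibHyp34

open Pool.Agent.LibBH2

variable {k : Type} [Field k] [CharZero k] [IsAlgClosed k] {f : k[X]} [Hyp f]

/-- the sum of the orders of `h` over all points -/
noncomputable def dg (h : KC f) : ℤ := ∑ᶠ P : Pt f, (vp P).ord h

theorem finite_supp (h : KC f) (hh : h ≠ 0) :
    (Function.support fun P : Pt f => (vp P).ord h).Finite := finite_ord h hh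

theorem dg_mul {g h : KC f} (hg : g ≠ 0) (hh : h ≠ 0) : dg (g * h) = dg g + dg h := by
  unfold dg
  rw [← finsum_add_distrib (finite_supp g hg) (finite_supp h hh)]
  exact finsum_congr fun P => (vp P).ord_mul _ _ hg hh

/-- the hyperelliptic involution as a permutation of the points -/
def negEquiv : Pt f ≃ Pt f where
  toFun := neg
  invFun := neg
  left_inv := neg_neg'
  right_inv := neg_neg'

theorem dg_conj (A B : k[X]) : dg (el f A (-B)) = dg (el f A B) := by
  unfold dg
  rw [← finsum_comp_equiv (negEquiv (f := f)) (f := fun P => (vp P).ord (el f A B))]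
  exact finsum_congr fun P => (ord_neg P A B).symm

theorem el_zero_eq (A : k[X]) : el f A 0 = aeval (DCf f).s A := by simp [el]

theorem dg_const (c : k) : dg (el f (C c) 0) = 0 := by
  unfold dg
  rw [el_zero_eq, aeval_C]
  by_cases hc : c = 0
  · rw [hc, map_zero]
    simp only [Place.ord_zero]
    exact finsum_zero
  · rw [finsum_congr fun P : Pt f => (vp P).ord_const c hc]
    exact finsum_zero

theorem dg_linear (x : k) : dg (el f (X - C x) 0) = 0 := by
  have hne : el f (X - C x) 0 ≠ 0 := by
    rw [Ne, el_eq_zero_iff]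
    exact fun h => X_sub_C_ne_zero x h.1
  obtain ⟨y, hy⟩ := IsAlgClosed.exists_pow_nat_eq (f.eval x) (n := 2) (by norm_num)
  have hinf : (vp (.inf : Pt f)).ord (el f (X - C x) 0) = -2 := by
    rw [ord_inf hne, natDegree_Nm_zero, natDegree_X_sub_C]; norm_num
  have hsub : (Function.support fun P : Pt f => (vp P).ord (el f (X - C x) 0)) ⊆
      (({.inf, .aff x y hy, neg (.aff x y hy)} : Finset (Pt f)) : Set (Pt f)) := by
    intro P hP
    rw [Function.mem_support] at hP
    match P with
    | .inf => simp
    | .aff x' y' h' =>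
      rw [ord_poly h' (X_sub_C_ne_zero x), rootMultiplicity_X_sub_C] at hP
      have hx : x' = x := by
        by_contra hx
        rw [if_neg hx] at hP
        simp at hP
      subst hx
      have : (y' - y) * (y' + y) = 0 := by linear_combination h' - hy
      rcases mul_eq_zero.1 this with h | h
      · have : y' = y := by linear_combination h
        subst this
        simp
      · have : y' = -y := by linear_combination h
        subst this
        simp [neg]
  unfold dg
  rw [finsum_eq_sum_of_support_subset _ hsub]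
  have hP : (vp (.aff x y hy : Pt f)).ord (el f (X - C x) 0) = if y = 0 then 2 else 1 := by
    rw [ord_poly hy (X_sub_C_ne_zero x), rootMultiplicity_X_sub_C, if_pos rfl]
    simp
  by_cases hy0 : y = 0
  · subst hy0
    have hneg : neg (.aff x 0 hy : Pt f) = .aff x 0 hy := by simp [neg]
    rw [hneg, Finset.pair_eq_singleton, Finset.sum_insert (by simp), Finset.sum_singleton, hinf,
      hP, if_pos rfl]
    norm_num
  · have hne' : (.aff x y hy : Pt f) ≠ neg (.aff x y hy) := by
      intro h
      simp only [neg, Pt.aff.injEq, true_and] at h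
      apply hy0
      have : 2 * y = 0 := by linear_combination h
      simpa using this
    have hN : (vp (neg (.aff x y hy : Pt f))).ord (el f (X - C x) 0) = 1 := by
      rw [LibHyp34.ord_neg, neg_zero, hP, if_neg hy0]
    rw [Finset.sum_insert (by simp [neg]), Finset.sum_insert (by
      rw [Finset.mem_singleton]; exact hne'), Finset.sum_singleton, hinf, hP, if_neg hy0, hN]
    norm_num

theorem dg_poly (n : ℕ) : ∀ A : k[X], A.natDegree = n → A ≠ 0 → dg (el f A 0) = 0 := by
  induction n with
  | zero =>
    intro A hA _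
    rw [eq_C_of_natDegree_eq_zero hA]
    exact dg_const _
  | succ n ih =>
    intro A hA hA0
    obtain ⟨x, hx⟩ := IsAlgClosed.exists_root A (by
      rw [degree_eq_natDegree hA0, hA]; exact_mod_cast Nat.succ_ne_zero n)
    obtain ⟨B, hB⟩ := dvd_iff_isRoot.2 hx
    have hB0 : B ≠ 0 := by rintro rfl; simp at hB; exact hA0 hB
    have hdeg : B.natDegree = n := by
      have := natDegree_mul (X_sub_C_ne_zero x) hB0
      rw [← hB, hA, natDegree_X_sub_C] at this
      omega
    have hmul : el f A 0 = el f (X - C x) 0 * el f B 0 := by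
      rw [el_zero_eq, el_zero_eq, el_zero_eq, hB, map_mul]
    rw [hmul, dg_mul, dg_linear, ih B hdeg hB0, add_zero]
    · rw [Ne, el_eq_zero_iff]
      exact fun h => X_sub_C_ne_zero x h.1
    · rw [Ne, el_eq_zero_iff]
      exact fun h => hB0 h.1

theorem dg_el {A B : k[X]} (h : el f A B ≠ 0) : dg (el f A B) = 0 := by
  have h1 := el_conj (f := f) A B
  have hN := Nm_ne_zero h
  have h2 : el f A (-B) ≠ 0 := by
    rw [Ne, el_eq_zero_iff, neg_eq_zero, ← el_eq_zero_iff (f := f)]
    exact h
  have h3 := dg_mul h h2
  rw [h1, dg_poly _ _ rfl hN, dg_conj] at h3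
  omega

/-- the sum of the orders of a function over all points is zero -/
theorem sum_ord (h : KC f) (hh : h ≠ 0) : ∑ P ∈ (finite_ord h hh).toFinset, (vp P).ord h = 0 := by
  have h1 : ∑ P ∈ (finite_ord h hh).toFinset, (vp P).ord h = dg h := by
    unfold dg
    rw [finsum_eq_sum_of_support_subset _ (s := (finite_ord h hh).toFinset)]
    rw [Set.Finite.coe_toFinset]
    exact subset_rfl
  rw [h1]
  obtain ⟨A, B, Q, hQ, hq⟩ := exists_quot h
  have hQ' : el f Q 0 ≠ 0 := by
    rw [Ne, el_eq_zero_iff]
    exact fun h => hQ h.1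
  have h2 := dg_mul hh hQ'
  rw [hq, dg_poly _ _ rfl hQ, dg_el (by rw [← hq]; exact mul_ne_zero hh hQ')] at h2
  omega

end Pool.Agent.LibHyp34
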