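import Pool.Agent.LibHyp34.A6

/-!
The divisor of a function.
-/

open scoped Classical
open Polynomial

namespace Pool.Agent.LibHyp34

open Pool.Agent.LibBH2

variable {k : Type} [Field k] [CharZero k] [IsAlgClosed k] {f : k[X]} [Hyp f]

/-- the divisor of a function (zero for the zero function) -/
noncomputable def dv (h : KC f) : Pt f →₀ ℤ :=
  if hh : h ≠ 0 then
    { support := (finite_ord h hh).toFinset
      toFun := fun P => (vp P).ord h
      mem_support_toFun := by intro P; simp }
  else 0

theorem dv_apply (h : KC f) (P : Pt f) : dv h P = (vp P).ord h := by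
  unfold dv
  split_ifs with hh
  · rfl
  · have : h = 0 := not_not.1 hh
    rw [this, Place.ord_zero]; rfl

theorem dv_mul {g h : KC f} (hg : g ≠ 0) (hh : h ≠ 0) : dv (g * h) = dv g + dv h := by
  ext P
  rw [Finsupp.add_apply, dv_apply, dv_apply, dv_apply, Place.ord_mul _ _ _ hg hh]

theorem dv_one : dv (1 : KC f) = 0 := by
  ext P
  rw [dv_apply, Place.ord_one]; rfl

theorem dv_inv (h : KC f) : dv h⁻¹ = - dv h := by
  ext P
  rw [Finsupp.neg_apply, dv_apply, dv_apply, Place.ord_inv]

theorem isDiv_iff (D : Pt f →₀ ℤ) : IsDiv f D ↔ ∃ h : KC f, h ≠ 0 ∧ D = dv h := by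
  constructor
  · rintro ⟨h, S, p, hh, hS, hp, rfl⟩
    refine ⟨h, hh, ?_⟩
    ext P
    rw [dv_apply, Finsupp.finsetSum_apply]
    have hv : ∀ v ∈ S, v = vp (p v) := fun v hv => eq_vp (hp v hv)
    by_cases hPS : vp P ∈ S
    · rw [Finset.sum_eq_single_of_mem (vp P) hPS]
      · have : p (vp P) = P := (vp_injective (hv _ hPS)).symm
        rw [this, Finsupp.single_eq_same]
      · intro v hvS hne
        rw [Finsupp.single_apply, if_neg]
        intro hpv
        exact hne (by rw [hv v hvS, hpv])
    · have h0 : (vp P).ord h = 0 := by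
        by_contra hc
        exact hPS (hS _ hc)
      rw [h0]
      apply Finset.sum_eq_zero
      intro v hvS
      rw [Finsupp.single_apply, if_neg]
      intro hpv
      apply hPS
      rw [← hpv, ← hv v hvS]
      exact hvS
  · rintro ⟨h, hh, rfl⟩
    refine ⟨h, (finite_ord h hh).toFinset.image vp, fun v => Classical.choose (place_surj v), hh,
      ?_, fun v _ => Classical.choose_spec (place_surj v), ?_⟩
    · intro v hv
      obtain ⟨P, rfl⟩ := exists_eq_vp v
      rw [Finset.mem_image]
      exact ⟨P, by simpa using hv, rfl⟩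
    · have hch : ∀ P : Pt f, Classical.choose (place_surj (vp P)) = P := fun P =>
        sp_injective (Classical.choose_spec (place_surj (vp P))) (sp_vp P)
      rw [Finset.sum_image (fun a _ b _ hab => vp_injective hab)]
      ext P
      rw [dv_apply, Finsupp.finsetSum_apply]
      simp only [hch]
      by_cases hP : P ∈ (finite_ord h hh).toFinset
      · rw [Finset.sum_eq_single_of_mem P hP, Finsupp.single_eq_same]
        intro Q _ hne
        rw [Finsupp.single_apply, if_neg hne]
      · have h0 : (vp P).ord h = 0 := by simpa using hP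
        rw [h0]
        symm
        apply Finset.sum_eq_zero
        intro Q hQ
        rw [Finsupp.single_apply, if_neg]
        rintro rfl
        exact hP hQ

theorem deg_dv (h : KC f) : deg (dv h) = 0 := by
  by_cases hh : h = 0
  · unfold dv
    rw [dif_neg (not_not.2 hh)]
    rfl
  · have h1 := sum_ord h hh
    have h2 : (dv h).support = (finite_ord h hh).toFinset := by
      ext P
      rw [Finsupp.mem_support_iff, dv_apply]
      simp
    unfold deg
    rw [Finsupp.sum, h2]
    refine Eq.trans ?_ h1
    exact Finset.sum_congr rfl fun P _ => dv_apply h P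

theorem deg_add (D E : Pt f →₀ ℤ) : deg (D + E) = deg D + deg E := by
  unfold deg
  exact Finsupp.sum_add_index' (fun _ => rfl) (fun _ _ _ => rfl)

theorem mk_eq_zero_iff (D : Pt f →₀ ℤ) : mk f D = 0 ↔ ∃ h : KC f, h ≠ 0 ∧ D = dv h := by
  have h1 : mk f D = 0 ↔ D ∈ AddSubgroup.closure {D | IsDiv f D} :=
    QuotientAddGroup.eq_zero_iff D
  rw [h1]
  clear h1
  constructor
  · intro hD
    induction hD using AddSubgroup.closure_induction with
    | mem x hx => exact (isDiv_iff x).1 hx
    | zero => exact ⟨1, one_ne_zero, dv_one.symm⟩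
    | add x y _ _ hx hy =>
      obtain ⟨g, hg, rfl⟩ := hx
      obtain ⟨h, hh, rfl⟩ := hy
      exact ⟨g * h, mul_ne_zero hg hh, (dv_mul hg hh).symm⟩
    | neg x _ hx =>
      obtain ⟨g, hg, rfl⟩ := hx
      exact ⟨g⁻¹, inv_ne_zero hg, (dv_inv g).symm⟩
  · intro hD
    exact AddSubgroup.subset_closure ((isDiv_iff D).2 hD)

end Pool.Agent.LibHyp34
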