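import Pool.Agent.LibBH2.Place

/-!
Hyperelliptic curves `C : y ^ 2 = f(x)`, `f` a monic squarefree polynomial of odd degree, and their
points.
-/

open scoped Classical
open Polynomial

namespace Pool.Agent.LibHyp34

open Pool.Agent.LibBH2

/-- `y ^ 2 = f(x)` is a hyperelliptic curve (an elliptic curve if `f` has degree `3`) in Weierstrass
form: `f` is monic of odd degree `≥ 3` without multiple roots. -/
class Hyp {k : Type} [Field k] (f : k[X]) : Prop where
  monic : f.Monic
  odd : Odd f.natDegree
  three : 3 ≤ f.natDegree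
  sqf : Squarefree f

/-- The genus of the curve `y ^ 2 = f(x)`, `f` of odd degree. -/
def gn {k : Type} [Field k] (f : k[X]) : ℕ := f.natDegree / 2

theorem Hyp.deg {k : Type} [Field k] {f : k[X]} [Hyp f] : f.natDegree = 2 * gn f + 1 := by
  obtain ⟨m, hm⟩ := Hyp.odd (f := f)
  rw [gn]
  omega

theorem Hyp.one_le {k : Type} [Field k] {f : k[X]} [Hyp f] : 1 ≤ gn f := by
  have h := Hyp.three (f := f)
  rw [gn]
  omega

/-- The points of the smooth projective curve `y ^ 2 = f(x)` (`deg f` odd): the affine solutions
and one point at infinity. -/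
inductive Pt {k : Type} [Field k] (f : k[X]) : Type
  | inf : Pt f
  | aff (x y : k) (h : y ^ 2 = f.eval x) : Pt f

variable {k : Type} [Field k]

/-- `Sp v T p`: the `K`-point `T` of the curve `y ^ 2 = f(x)` (defined over `k`) specialises at the
place `v` of `K` over `k` to the `k`-point `p`. -/
def Sp {K : Type} [Field K] [Algebra k K] {f : k[X]} (v : Place k K) :
    Pt (f.map (algebraMap k K)) → Pt f → Prop
  | .inf, p => p = .inf
  | .aff x _ _, .inf => v.ord x < 0
  | .aff x y _, .aff x₀ y₀ _ =>
      v.Zer (x - algebraMap k K x₀) ∧ v.Zer (y - algebraMap k K y₀)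

/-- The degree of a divisor. -/
noncomputable def deg {f : k[X]} (D : Pt f →₀ ℤ) : ℤ := D.sum fun _ n => n

end Pool.Agent.LibHyp34
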