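import Pool.Agent.LibBH2.Inv
import Pool.Agent.LibHyp34.StmtDefs

/-!
Hyperelliptic curves `C : y ^ 2 = f(x)`, `f` a monic squarefree polynomial of odd degree: function
field, divisors of functions, the Picard group.
-/

open scoped Classical
open Polynomial

namespace Pool.Agent.LibHyp34

open Pool.Agent.LibBH2

variable {k : Type} [Field k]

section ff

variable (f : k[X]) [Hyp f]

theorem nsq : ¬ IsSquare (algebraMap k[X] (RatFunc k) f) := by
  apply not_isSquare_of_odd
  exact Hyp.odd

instance : Fact (Irreducible (quadPoly f)) := ⟨quadPoly_irreducible (nsq f)⟩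

/-- The function field `k(s)(w)`, `w ^ 2 = f(s)`, of the curve. -/
abbrev KC : Type := AdjoinRoot (quadPoly f)

/-- its presentation as a double cover of the `s`-line -/
noncomputable def DCf : DC k (KC f) := DC.ofQuad f

theorem gen_eq : (DCf f).w ^ 2 = (f.map (algebraMap k (KC f))).eval (DCf f).s := by
  rw [(DCf f).aeval_F, eval_map_algebraMap]
  rfl

/-- The generic point `(s, w)` of the curve. -/
noncomputable def gen : Pt (f.map (algebraMap k (KC f))) := .aff (DCf f).s (DCf f).w (gen_eq f)

/-- `D` is the divisor of a rational function `h` on the curve: `D` is the sum over the places `v`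
of the function field of `ord_v h` times the point at which `v` is centred. -/
def IsDiv (D : Pt f →₀ ℤ) : Prop :=
  ∃ (h : KC f) (S : Finset (Place k (KC f))) (p : Place k (KC f) → Pt f),
    h ≠ 0 ∧ (∀ v, v.ord h ≠ 0 → v ∈ S) ∧ (∀ v ∈ S, Sp v (gen f) (p v)) ∧
    D = ∑ v ∈ S, Finsupp.single (p v) (v.ord h)

/-- The Picard group of the curve: divisors modulo divisors of functions. -/
def Pic : Type := (Pt f →₀ ℤ) ⧸ AddSubgroup.closure {D | IsDiv f D}

noncomputable instance : AddCommGroup (Pic f) :=
  inferInstanceAs (AddCommGroup (_ ⧸ AddSubgroup.closure {D | IsDiv f D}))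

/-- The class of a divisor. -/
noncomputable def mk : (Pt f →₀ ℤ) →+ Pic f :=
  QuotientAddGroup.mk' (AddSubgroup.closure {D | IsDiv f D})

end ff

end Pool.Agent.LibHyp34
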